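import Pool.Agent.Q202.HC.Main

/-!
# Hyperplane compressions and normal operators: hyperinvariant subspaces

(a) Let `N` be a normal operator on a separable complex Hilbert space `H`, let `M` be a closed subspace
of codimension one, and let `T` be the compression of `N` to `M`. Then `T` is a multiple of the identity
or has a nontrivial closed hyperinvariant subspace.

(b) Let `T` be a bounded operator on `H` whose compression `N` to some closed subspace `M` of codimension
one is normal: with respect to `H = M ⊕ Mᗮ` the matrix of `T` is `((N, a), (b, c))` with `N` normal,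
vectors `a`, `b` and a number `c`, all arbitrary. Then `T` is a multiple of the identity or has a
nontrivial closed hyperinvariant subspace.

In both cases `T` and its adjoint have nonzero vectors with arbitrarily small local spectra at every
point of the spectrum. Both classes consist (up to a summand `0`) of special rank two perturbations of
normal operators; for rank two perturbations in general the question is open.

Proof. For large `z` the operator `(T - z)⁻¹` (plus a summand `0` in case (a)) is a rank one
perturbation of the normal operator `(N - z)⁻¹` (plus a summand `0` in case (b)), and the theorem on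
rank one perturbations of the starting library (`RankOnePerturbations` in this folder) applies.
-/

set_option autoImplicit false

open scoped InnerProductSpace

namespace Pool.Agent.Results.MP_f981b0_an.HyperplaneCompressions

section Defs

variable {H : Type} [NormedAddCommGroup H] [InnerProductSpace ℂ H]

/-- `T` is a multiple of the identity. -/
def IsScalar (T : H →L[ℂ] H) : Prop := ∃ c : ℂ, T = c • (1 : H →L[ℂ] H)

/-- `T` has a closed subspace, neither `{0}` nor the whole space, which is invariant under every
bounded operator commuting with `T`. -/
def HasHyperinvariant (T : H →L[ℂ] H) : Prop :=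
  ∃ V : Submodule ℂ H, IsClosed (V : Set H) ∧ V ≠ ⊥ ∧ V ≠ ⊤ ∧
    ∀ Q : H →L[ℂ] H, Q * T = T * Q → ∀ x ∈ V, Q x ∈ V

/-- For every point `c` of the spectrum and every `ε > 0` there is a nonzero vector `x` with
`‖(T - c)^n x‖ ≤ C ε ^ n` for all `n`. -/
def SmallLocalSpectra (T : H →L[ℂ] H) : Prop :=
  ∀ c ∈ spectrum ℂ T, ∀ ε : ℝ, 0 < ε → ∃ (x : H) (C : ℝ), x ≠ 0 ∧
    ∀ n : ℕ, ‖((T - c • (1 : H →L[ℂ] H)) ^ n) x‖ ≤ C * ε ^ n

/-- `T` is the compression of `N` to the subspace `M`: `T x` is the orthogonal projection of `N x`
to `M`. -/
def IsCompression (N : H →L[ℂ] H) (M : Submodule ℂ H) (T : M →L[ℂ] M) : Prop :=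
  ∀ x y : M, ⟪(y : H), (T x : H)⟫_ℂ = ⟪(y : H), N (x : H)⟫_ℂ

end Defs

/-- **Compressions of normal operators to closed hyperplanes, and operators with a normal compression
to a closed hyperplane**: such an operator is a multiple of the identity or has a nontrivial
hyperinvariant subspace, and it and its adjoint have small local spectra. -/
theorem result (H : Type) [NormedAddCommGroup H] [InnerProductSpace ℂ H] [CompleteSpace H]
    [TopologicalSpace.SeparableSpace H] (M : Submodule ℂ H) [CompleteSpace M]
    (hM : Module.finrank ℂ Mᗮ = 1) :
    (∀ (N : H →L[ℂ] H) (T : M →L[ℂ] M), IsStarNormal N → IsCompression N M T →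
      (IsScalar T ∨ HasHyperinvariant T) ∧ SmallLocalSpectra T ∧
        SmallLocalSpectra (ContinuousLinearMap.adjoint T)) ∧
    (∀ (T : H →L[ℂ] H) (N : M →L[ℂ] M), IsStarNormal N → IsCompression T M N →
      (IsScalar T ∨ HasHyperinvariant T) ∧ SmallLocalSpectra T ∧
        SmallLocalSpectra (ContinuousLinearMap.adjoint T)) := by
  obtain ⟨w, hw⟩ := Pool.Agent.Q202.HC.exists_hyp M hM
  refine ⟨fun N T hN hT => ?_, fun T N hN hT => ?_⟩
  · refine Pool.Agent.Q202.HC.mainA hw N hN T fun x => ?_
    refine ext_inner_left ℂ fun y => ?_
    rw [Submodule.inner_orthogonalProjectionOnto_eq_of_mem_left]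
    exact hT x y
  · refine Pool.Agent.Q202.HC.mainB hw T N hN fun x => ?_
    refine ext_inner_left ℂ fun y => ?_
    rw [Submodule.inner_orthogonalProjectionOnto_eq_of_mem_left]
    exact hT x y

end Pool.Agent.Results.MP_f981b0_an.HyperplaneCompressions
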