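import Pool.Agent.Y187.RF.Main

/-!
# MP_f981b0_an: a quasinilpotent operator in a `II₁` factor without invariant projections

The invariant subspace problem relative to a `II₁` factor `M` asks whether every operator `T ∈ M` has
a nontrivial invariant projection in `M` (a closed invariant subspace affiliated with `M`). By the
theorem of Haagerup and Schultz the answer is yes, with hyperinvariant projections, unless the Brown
measure of `T` is a point mass. In the remaining case the answer is no: there are a `II₁` factor in
standard form on a separable Hilbert space and a quasinilpotent operator `T` of the factor (all of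
whose moments vanish and whose Brown measure is the point mass at `0`), such that `0` and `1` are the
only projections of the factor which are invariant under `T`. So `T` and the commutant of the factor
have no common nontrivial closed invariant subspace.

The operator is constructed in the starting files (`Pool.Agent.H728R2.Q77`, `Pool.Agent.Y187.RF`);
there it had been used for an example of a reductive algebra with two generators, but had not been
handed in itself.
-/

set_option autoImplicit false

open Filter Topology
open scoped ComplexOrder InnerProductSpace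

namespace Pool.Agent.Results.MP_f981b0_an.NoInvariantProjection

/-- The von Neumann algebra `M` on `H` is a factor of type `II₁` in its standard form, and `ξ` is its
trace vector: `M` has trivial centre and infinite dimension, `x ↦ ⟪ξ, x ξ⟫` is a tracial state on
`M`, and `ξ` is cyclic and separating for `M`. -/
structure IsIIOneFactor {H : Type} [NormedAddCommGroup H] [InnerProductSpace ℂ H] [CompleteSpace H]
    (M : VonNeumannAlgebra H) (ξ : H) : Prop where
  factor : ∀ z ∈ M, (∀ x ∈ M, z * x = x * z) → ∃ c : ℂ, z = c • (1 : H →L[ℂ] H)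
  infinite : ¬ FiniteDimensional ℂ M.toStarSubalgebra
  norm_one : ‖ξ‖ = 1
  trace : ∀ x ∈ M, ∀ y ∈ M, ⟪ξ, (x * y) ξ⟫_ℂ = ⟪ξ, (y * x) ξ⟫_ℂ
  separating : ∀ x ∈ M, x ξ = 0 → x = 0
  cyclic : Dense {η : H | ∃ x ∈ M, x ξ = η}

/-- the logarithm of a positive operator -/
noncomputable def logOp {H : Type} [NormedAddCommGroup H] [InnerProductSpace ℂ H] [CompleteSpace H]
    (A : H →L[ℂ] H) : H →L[ℂ] H := CFC.log A

/-- `|T - μ|^2 + ε` -/
noncomputable def absSq {H : Type} [NormedAddCommGroup H] [InnerProductSpace ℂ H]
    [CompleteSpace H] (T : H →L[ℂ] H) (μ : ℂ) (ε : ℝ) : H →L[ℂ] H :=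
  star (T - μ • (1 : H →L[ℂ] H)) * (T - μ • (1 : H →L[ℂ] H)) + (ε : ℂ) • (1 : H →L[ℂ] H)

/-- The Brown measure of `T` with respect to the trace vector `ξ` is the point mass at `0`: the
logarithm of the Fuglede-Kadison determinant of `T - μ`, that is the limit of
`τ (log (|T - μ|^2 + ε)) / 2` for `ε → 0+`, is `log |μ|` for all `μ ≠ 0`. -/
def BrownMeasureAtZero {H : Type} [NormedAddCommGroup H] [InnerProductSpace ℂ H] [CompleteSpace H]
    (ξ : H) (T : H →L[ℂ] H) : Prop :=
  ∀ μ : ℂ, μ ≠ 0 → Tendsto (fun ε : ℝ => (⟪ξ, logOp (absSq T μ ε) ξ⟫_ℂ).re / 2)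
    (𝓝[>] 0) (𝓝 (Real.log ‖μ‖))

/-- `0` and `1` are the only projections of `M` whose range is invariant under `T`. -/
def NoInvariantProjection {H : Type} [NormedAddCommGroup H] [InnerProductSpace ℂ H]
    [CompleteSpace H] (M : VonNeumannAlgebra H) (T : H →L[ℂ] H) : Prop :=
  ∀ P ∈ M, IsStarProjection P → T * P = P * T * P → P = 0 ∨ P = 1

/-- `T` and the commutant of `M` have no common closed invariant subspace except `0` and `H` -/
def NoCommonSubspace {H : Type} [NormedAddCommGroup H] [InnerProductSpace ℂ H]
    [CompleteSpace H] (M : VonNeumannAlgebra H) (T : H →L[ℂ] H) : Prop :=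
  ∀ V : Submodule ℂ H, IsClosed (V : Set H) → (∀ v ∈ V, T v ∈ V) →
    (∀ B : H →L[ℂ] H, (∀ y ∈ M, B * y = y * B) → ∀ v ∈ V, B v ∈ V) → V = ⊥ ∨ V = ⊤

/-- `T` is a nonzero quasinilpotent operator of `M`, with vanishing moments and Brown measure the
point mass at `0`, without nontrivial invariant projections in `M` -/
structure Example {H : Type} [NormedAddCommGroup H] [InnerProductSpace ℂ H]
    [CompleteSpace H] (M : VonNeumannAlgebra H) (ξ : H) (T : H →L[ℂ] H) : Prop where
  mem : T ∈ M
  ne_zero : T ≠ 0
  quasinilpotent : spectrum ℂ T = {0}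
  moments : ∀ m : ℕ, 1 ≤ m → ⟪ξ, (T ^ m) ξ⟫_ℂ = 0
  brown : BrownMeasureAtZero ξ T
  no_proj : NoInvariantProjection M T
  no_common : NoCommonSubspace M T

open Pool.Agent.Y187.RF Pool.Agent.H941R2.CM in
theorem exampleT : ∃ T, Example M xi T := by
  obtain ⟨T, hT, h0, h1, h2, h3, h4⟩ := exists_T
  refine ⟨T, hT, h0, h1, h2, h3, h4, ?_⟩
  · intro V hV hTV hB
    exact eq_bot_or_top M T h4 V hV hTV hB

/-- **The invariant subspace problem relative to a `II₁` factor has a negative answer.** -/
theorem result : ∃ (H : Type) (_ : NormedAddCommGroup H) (_ : InnerProductSpace ℂ H)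
    (_ : CompleteSpace H) (M : VonNeumannAlgebra H) (ξ : H), TopologicalSpace.SeparableSpace H ∧
    IsIIOneFactor M ξ ∧ ∃ T : H →L[ℂ] H, Example M ξ T := by
  have hf := Pool.Agent.Y187.RF.isIIOne
  exact ⟨Pool.Agent.H941R2.CM.Hs, inferInstance, inferInstance, inferInstance,
    Pool.Agent.H941R2.CM.M, Pool.Agent.H941R2.CM.xi, Pool.Agent.Y187.RF.separable_Hs,
    ⟨hf.factor, hf.infinite, hf.norm_one, hf.trace, hf.separating, hf.cyclic⟩, exampleT⟩

end Pool.Agent.Results.MP_f981b0_an.NoInvariantProjection
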