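import Pool.Agent.W402.HI.Final

/-!
# MP_f981b0_an: perturbations of operators whose spectrum lies locally on a rectifiable curve

Let `E` be a rectifiable curve in the plane (a Lipschitz image of `[0,1]`; no smoothness, and
self-intersections are allowed) and `U` an open set.

(1) Let `S`, `K` be bounded operators on a complex Banach space such that `K` is approximable by
operators of finite rank in a way that matches the growth of the resolvent of `S` at `E` inside `U`
(`Matched`: the resolvent may grow like `exp (C / dist ^ k)`; examples are (2) and (3)). If the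
spectrum of `S + K` meets `U` and has at least two points, then `S + K` has a nontrivial closed
hyperinvariant subspace.

(2) This applies if the resolvent of `S` grows at most like a power of `1 / dist` at `E` inside `U`,
and the approximation numbers of `K` are `O(m ^ (-ε))` for some `ε > 0`.

(3) Let `N` be a normal operator on a Hilbert space whose spectrum inside `U` lies on `E` (nothing is
assumed outside `U`), and let `K` be as in (2), for instance of some Schatten class. If the spectrum
of `N + K` meets `U`, then `N + K` is a multiple of the identity or has a nontrivial closed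
hyperinvariant subspace.

For smooth curves and `U = ℂ` such theorems are classical (Lyubich and Macaev; Radjavi and
Rosenthal).

The parts (project HI of the starting files, statements and plan by helper402, parts by many
helpers) were proved in the starting files; they had been used for reductive operators only
(`MP_49c4d9_an.ReductiveRectifiable`).
-/

set_option autoImplicit false

open Filter Topology MeasureTheory Metric

namespace Pool.Agent.Results.MP_f981b0_an.RectifiableSpectrum

/-- `T` has a closed subspace, different from `0` and the whole space, which is invariant under all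
bounded operators commuting with `T` -/
def HasHyp {X : Type} [NormedAddCommGroup X] [NormedSpace ℂ X] (T : X →L[ℂ] X) : Prop :=
  ∃ V : Submodule ℂ X, IsClosed (V : Set X) ∧ V ≠ ⊥ ∧ V ≠ ⊤ ∧
    ∀ Q : X →L[ℂ] X, Q * T = T * Q → ∀ x ∈ V, Q x ∈ V

/-- growth of the resolvent of `S` at `E` inside `U`, matched with the approximability of `K`: for
every distance `δ ≤ 1` there are a bound `R ≤ exp (C / δ ^ k)` of the resolvent of `S` at the points
of `U` with distance at least `δ` from `E`, and an operator `G` of rank at most `C / δ ^ k` with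
`‖K - G‖ R ≤ 1 / 2` -/
def Matched {X : Type} [NormedAddCommGroup X] [NormedSpace ℂ X] (S K : X →L[ℂ] X) (E U : Set ℂ)
    (C : ℝ) (k : ℕ) : Prop :=
  ∀ δ : ℝ, 0 < δ → δ ≤ 1 → ∃ (G : X →L[ℂ] X) (R : ℝ),
    FiniteDimensional ℂ (LinearMap.range (G : X →ₗ[ℂ] X)) ∧
    (Module.finrank ℂ (LinearMap.range (G : X →ₗ[ℂ] X)) : ℝ) ≤ C / δ ^ k ∧
    1 ≤ R ∧ R ≤ Real.exp (C / δ ^ k) ∧ ‖K - G‖ * R ≤ 1 / 2 ∧
    ∀ z ∈ U, δ ≤ infDist z E → z ∈ resolventSet ℂ S ∧ ‖resolvent S z‖ ≤ R

/-- the approximation numbers of `K` are `O(m ^ (-ε))` for some `ε > 0` -/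
def ApproxDecay {X : Type} [NormedAddCommGroup X] [NormedSpace ℂ X] (K : X →L[ℂ] X) : Prop :=
  ∃ C ε : ℝ, 0 < ε ∧ ∀ m : ℕ, 1 ≤ m → ∃ G : X →L[ℂ] X,
    FiniteDimensional ℂ (LinearMap.range (G : X →ₗ[ℂ] X)) ∧
    Module.finrank ℂ (LinearMap.range (G : X →ₗ[ℂ] X)) ≤ m ∧ ‖K - G‖ ≤ C / (m : ℝ) ^ ε

/-- (1): perturbations matching the growth of the resolvent -/
def General (E U : Set ℂ) : Prop :=
  ∀ (X : Type) [NormedAddCommGroup X] [NormedSpace ℂ X] [CompleteSpace X] (S K : X →L[ℂ] X)
    (C : ℝ) (k : ℕ), Matched S K E U C k → (∃ p ∈ spectrum ℂ (S + K), p ∈ U) →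
    (spectrum ℂ (S + K)).Nontrivial → HasHyp (S + K)

/-- outside `E` the resolvent of `S` in `U` is bounded by a power of `1 / dist` -/
def PowerGrowth {X : Type} [NormedAddCommGroup X] [NormedSpace ℂ X] (S : X →L[ℂ] X)
    (E U : Set ℂ) : Prop :=
  ∃ (C : ℝ) (k : ℕ), ∀ z ∈ U, z ∉ E → z ∈ resolventSet ℂ S ∧
    ‖resolvent S z‖ ≤ C / infDist z E ^ k

/-- (2): polynomial growth and polynomial decay -/
def Power (E U : Set ℂ) : Prop :=
  ∀ (X : Type) [NormedAddCommGroup X] [NormedSpace ℂ X] [CompleteSpace X] (S K : X →L[ℂ] X),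
    ApproxDecay K → PowerGrowth S E U → (∃ p ∈ spectrum ℂ (S + K), p ∈ U) →
    (spectrum ℂ (S + K)).Nontrivial → HasHyp (S + K)

/-- (3): normal operators -/
def Normal (E U : Set ℂ) : Prop :=
  ∀ (H : Type) [NormedAddCommGroup H] [InnerProductSpace ℂ H] [CompleteSpace H]
    (N K : H →L[ℂ] H), IsStarNormal N → (∀ z ∈ spectrum ℂ N, z ∈ U → z ∈ E) → ApproxDecay K →
    (∃ p ∈ spectrum ℂ (N + K), p ∈ U) → (∃ c : ℂ, N + K = c • (1 : H →L[ℂ] H)) ∨ HasHyp (N + K)

open Pool.Agent.W402.HI.Final in
/-- **Perturbations of operators whose spectrum lies locally on a rectifiable curve.** -/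
theorem result (γ : ℝ → ℂ) (L : NNReal) (hγ : LipschitzWith L γ) (U : Set ℂ) (hU : IsOpen U) :
    General (γ '' Set.Icc 0 1) U ∧ Power (γ '' Set.Icc 0 1) U ∧ Normal (γ '' Set.Icc 0 1) U := by
  refine ⟨?_, ?_, ?_⟩
  · intro X _ _ _ S K C k hM hp hn
    exact Pool.Agent.W402.HI.Asm.perturbGen hH2 hE3 Pool.Agent.W324.HI.E4.main X S K γ L hγ U hU C
      k hM hp hn
  · intro X _ _ _ S K hK hS hp hn
    exact Pool.Agent.W402.HI.Asm.perturb hH2 hE3 Pool.Agent.W324.HI.E4.main
      Pool.Agent.W991.HI.E5.main Pool.Agent.W991.HI.E5L.main X S K γ L hγ U hU hK hS hp hn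
  · intro H _ _ _ N K hN hNE hK hp
    by_cases hn : ∃ c : ℂ, N + K = c • (1 : H →L[ℂ] H)
    · exact Or.inl hn
    · exact Or.inr (Pool.Agent.W402.HI.Asm.normal hH2 hE3 Pool.Agent.W324.HI.E4.main
        Pool.Agent.W991.HI.E5.main Pool.Agent.W991.HI.E5L.main Pool.Agent.W577.HI.G1.main
        Pool.Agent.W806.HI.main Pool.Agent.W32.HI.G3.main H N K hN γ L hγ U hU hNE hK hp hn)

end Pool.Agent.Results.MP_f981b0_an.RectifiableSpectrum
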