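import Pool.Agent.H952R2.TY.P.A1
import Pool.Agent.H952R2.TY.P.A2
import Pool.Agent.H952R2.TY.P.A3
import Pool.Agent.H952R2.TY.P.A4
import Pool.Agent.H952R2.TY.P.A5
import Pool.Agent.H952R2.TY.P.A6
import Pool.Agent.H952R2.TY.P.A7
import Pool.Agent.H952R2.TY.P.A8
import Pool.Agent.H952R2.TY.P.A9
import Pool.Agent.H952R2.TY.P.A10
import Pool.Agent.H952R2.TY.P.A11
import Pool.Agent.H952R2.TY.P.A12
import Pool.Agent.H952R2.TY.P.B0
import Pool.Agent.H952R2.TY.P.B1
import Pool.Agent.H952R2.TY.P.B2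
import Pool.Agent.H952R2.TY.P.B3
import Pool.Agent.H952R2.TY.P.B4
import Pool.Agent.H952R2.TY.P.B5
import Pool.Agent.H952R2.TY.P.B6
import Pool.Agent.H952R2.TY.P.B7
import Pool.Agent.H952R2.TY.P.C1
import Pool.Agent.H952R2.TY.P.C2
import Pool.Agent.H952R2.TY.P.C3
import Pool.Agent.H952R2.TY.P.C4
import Pool.Agent.H952R2.TY.P.C5
import Pool.Agent.H952R2.TY.P.C6
import Pool.Agent.H952R2.TY.P.D1
import Pool.Agent.H952R2.TY.P.D2
import Pool.Agent.H952R2.TY.P.D3
import Pool.Agent.H952R2.TY.P.D4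
import Pool.Agent.H952R2.TY.P.D5
import Pool.Agent.H952R2.TY.P.D6
import Pool.Agent.H952R2.TY.P.D7
import Pool.Agent.H952R2.TY.P.T1
import Pool.Agent.H952R2.TY.P.T2
import Pool.Agent.H952R2.TY.P.T3
import Pool.Agent.H952R2.TY.P.T4
import Pool.Agent.H952R2.TY.P.T5
import Pool.Agent.H952R2.TY.P.T6
import Pool.Agent.H952R2.TY.P.T7
import Pool.Agent.H952R2.TY.P.T8
import Pool.Agent.H952R2.TY.P.STEP2
import Pool.Agent.H952R2.TY.P.FIN2

/-!
# MP_f981b0_an: typical quasinilpotent operators of McDuff algebras have invariant subspaces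

Let `M` be a von Neumann algebra with a faithful normal tracial state `τ` and with the McDuff
property (for instance any McDuff `II₁` factor, such as the hyperfinite one). By the theorem of
Haagerup and Schultz an element of `M` whose Brown measure is not a point mass has a nontrivial
hyperinvariant subspace in `M`; what is left are, up to translation, the operators `T ∈ M` which are
quasinilpotent in measure (`|T ^ n| ^ (1/n) → 0` in measure). The contractions `T ∈ M` of this kind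
form a Baire space for the 2-norm metric, and its typical element is injective, has dense range and
has a hyperinvariant projection of trace `1/2`.

The parts are in the starting files `Pool.Agent.H952R2.TY.P` (paper proof and statements by
helper952), never assembled nor handed in; new here: the assembly and the dense range.
-/

set_option autoImplicit false
open Filter Topology
open scoped ComplexOrder InnerProductSpace

namespace Pool.Agent.Results.MP_f981b0_an.TypicalMcDuff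

open Pool.H711R2 Pool.Agent.H952R2.TY

section

variable {H : Type} [NormedAddCommGroup H] [InnerProductSpace ℂ H] [CompleteSpace H]

/-- `τ` restricts to a faithful normal tracial state of `M` (its values outside `M` do not matter) -/
structure IsFaithfulNormalTrace (M : VonNeumannAlgebra H) (τ : (H →L[ℂ] H) →ₗ[ℂ] ℂ) : Prop where
  one : τ 1 = 1
  pos : ∀ x ∈ M, 0 ≤ τ (star x * x)
  faithful : ∀ x ∈ M, τ (star x * x) = 0 → x = 0
  trace : ∀ x ∈ M, ∀ y ∈ M, τ (x * y) = τ (y * x)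
  normal : ∀ (x : ℕ → (H →L[ℂ] H)) (y : H →L[ℂ] H), (∀ n, x n ∈ M) → (∀ n, ‖x n‖ ≤ 1) → y ∈ M →
    (∀ v, Tendsto (fun n => x n v) atTop (𝓝 (y v))) → Tendsto (fun n => τ (x n)) atTop (𝓝 (τ y))

/-- the McDuff property: for all `m`, `T ∈ M` and `ε > 0` there are `m × m` matrix units in `M`, with
sum `1`, which commute with `T` up to `ε` in the 2-norm -/
def McDuff (M : VonNeumannAlgebra H) (τ : (H →L[ℂ] H) →ₗ[ℂ] ℂ) : Prop :=
  ∀ m : ℕ, 1 ≤ m → ∀ T ∈ M, ∀ ε : ℝ, 0 < ε → ∃ e : Fin m → Fin m → (H →L[ℂ] H),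
    (∀ i j, e i j ∈ M) ∧ (∀ i j k l, e i j * e k l = if j = k then e i l else 0) ∧
    (∀ i j, star (e i j) = e j i) ∧ ∑ i, e i i = 1 ∧
    ∀ i j, (τ (star (e i j * T - T * e i j) * (e i j * T - T * e i j))).re ≤ ε

/-- the contractions of `M` which are quasinilpotent in measure: for every `r > 0` some power `T ^ n`,
`n ≥ 1`, has norm at most `r ^ n` on the range of a projection of `M` of trace at least `1 - r` -/
structure QN (M : VonNeumannAlgebra H) (τ : (H →L[ℂ] H) →ₗ[ℂ] ℂ) where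
  /-- the operator -/
  op : H →L[ℂ] H
  mem : op ∈ M
  norm_le : ‖op‖ ≤ 1
  qn : ∀ r : ℝ, 0 < r → ∃ n : ℕ, 1 ≤ n ∧ ∃ q ∈ M, IsStarProjection q ∧ 1 - r ≤ (τ q).re ∧
    ‖op ^ n * q‖ ≤ r ^ n

/-- `T` has a hyperinvariant projection of trace `1/2` in `M`: its range is a closed subspace,
different from `0` and `H`, invariant under all `S ∈ M` which commute with `T` -/
def HasHyp (M : VonNeumannAlgebra H) (τ : (H →L[ℂ] H) →ₗ[ℂ] ℂ) (T : H →L[ℂ] H) : Prop :=
  ∃ E ∈ M, star E = E ∧ E * E = E ∧ τ E = 1 / 2 ∧ ∀ S ∈ M, S * T = T * S → S * E = E * S * E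

end

/-! ### assembly of the parts -/

lemma a1 : S_A1 := P.A1
lemma a12 : S_A12 :=
  P.A12 (P.A10 P.A1 P.A2 P.A3 (P.A4 P.A3) P.A5 P.A6 P.A7 P.A8 P.A9) P.A11
lemma b7 : S_B7 :=
  P.B7 P.B0 P.B1 (P.B2 P.B0 P.B1) P.B3 P.B4 (P.B5 P.B3) P.B6
lemma c1 : S_C1 := P.C1 P.A1
lemma c4 : S_C4 := P.C4 c1 P.C2 (P.C3 P.C2)
lemma c6 : S_C6 := P.C6 P.C2
lemma d1 : S_D1 := P.D1 c1 P.C2
lemma step : P.S_STEP2 :=
  P.STEP2 a12 P.B0 b7 c1 c4 c6 d1 (P.D2 P.C2 d1) P.D3 P.D4 P.D5 P.D6 P.D7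
lemma t3 : S_T3 := P.T3 P.T2
lemma fin : P.S_FIN2 :=
  P.FIN2 (P.T4 P.T1 t3) P.T5 (P.T6 P.T1) (P.T7 P.T1 t3 P.D5) (P.T8 c1 c6) step (P.C5 P.C2)

variable {H : Type} [NormedAddCommGroup H] [InnerProductSpace ℂ H] [CompleteSpace H]

/-- the two versions of the space -/
def equiv (M : VonNeumannAlgebra H) (τ : (H →L[ℂ] H) →ₗ[ℂ] ℂ) : QN M τ ≃ QC M τ where
  toFun T := ⟨T.op, T.mem, T.norm_le, T.qn⟩
  invFun T := ⟨T.op, T.mem, T.norm_le, T.qn⟩
  left_inv _ := rfl
  right_inv _ := rfl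

/-- quasinilpotency in measure of the adjoint -/
lemma qn_star {M : VonNeumannAlgebra H} {τ : (H →L[ℂ] H) →ₗ[ℂ] ℂ} (hτ : IsNormalTrace M τ)
    (T : QN M τ) (r : ℝ) (hr : 0 < r) : ∃ n : ℕ, 1 ≤ n ∧ ∃ q ∈ M, IsStarProjection q ∧
      1 - r ≤ (τ q).re ∧ ‖(star T.op) ^ n * q‖ ≤ r ^ n := by
  obtain ⟨n, hn, q, hq, hQ, hqt, hqn⟩ := T.qn r hr
  obtain ⟨q', hq', hQ', hqt', hqn'⟩ := hτ.qn_star (vn_pow T.mem n) hq hQ (by positivity) hqn
  refine ⟨n, hn, q', hq', hQ', hqt.trans hqt', ?_⟩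
  rwa [← star_pow]

/-- the adjoint -/
noncomputable def adj {M : VonNeumannAlgebra H} {τ : (H →L[ℂ] H) →ₗ[ℂ] ℂ} (hτ : IsNormalTrace M τ) :
    QN M τ ≃ QN M τ where
  toFun T := ⟨star T.op, star_mem T.mem, by rw [norm_star]; exact T.norm_le, qn_star hτ T⟩
  invFun T := ⟨star T.op, star_mem T.mem, by rw [norm_star]; exact T.norm_le, qn_star hτ T⟩
  left_inv T := by cases T; simp
  right_inv T := by cases T; simp

/-- an operator whose adjoint is injective has dense range -/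
lemma dense_of_adj {T : H →L[ℂ] H} (h : ∀ v, (star T) v = 0 → v = 0) : DenseRange T := by
  have h1 : (LinearMap.range (T : H →ₗ[ℂ] H))ᗮ = ⊥ := by
    rw [Submodule.eq_bot_iff]
    intro v hv
    apply h
    have h2 : ∀ u, ⟪T u, v⟫_ℂ = 0 := fun u => (Submodule.mem_orthogonal _ _).1 hv _ ⟨u, rfl⟩
    have h3 := h2 ((star T) v)
    rw [ContinuousLinearMap.star_eq_adjoint] at h3 ⊢
    rw [← ContinuousLinearMap.adjoint_inner_right, inner_self_eq_zero] at h3
    exact h3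
  have h2 := (Submodule.topologicalClosure_eq_top_iff (K := LinearMap.range (T : H →ₗ[ℂ] H))).2 h1
  have h3 := (Submodule.dense_iff_topologicalClosure_eq_top).2 h2
  intro x
  have h4 : x ∈ closure ((LinearMap.range (T : H →ₗ[ℂ] H) : Submodule ℂ H) : Set H) := h3 x
  have h5 : ((LinearMap.range (T : H →ₗ[ℂ] H) : Submodule ℂ H) : Set H) = Set.range T := by
    ext y; simp
  rwa [h5] at h4

/-- **Typical quasinilpotent contractions of a McDuff algebra.** -/
theorem result (H : Type) [NormedAddCommGroup H] [InnerProductSpace ℂ H] [CompleteSpace H]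
    (M : VonNeumannAlgebra H) (τ : (H →L[ℂ] H) →ₗ[ℂ] ℂ) (hτ : IsFaithfulNormalTrace M τ)
    (hM : McDuff M τ) :
    ∃ _ : MetricSpace (QN M τ),
      (∀ S T : QN M τ, dist S T = Real.sqrt (τ (star (S.op - T.op) * (S.op - T.op))).re) ∧
      BaireSpace (QN M τ) ∧
      {T : QN M τ | Function.Injective T.op ∧ DenseRange T.op ∧ HasHyp M τ T.op} ∈
        residual (QN M τ) := by
  have hnt : IsNormalTrace M τ := ⟨hτ.one, hτ.pos, hτ.trace, hτ.normal⟩
  obtain ⟨mm, hd, hB, hres⟩ := fin H M τ hτ.one hτ.pos hτ.faithful hτ.trace hτ.normal hM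
  let φ := equiv M τ
  let m' : MetricSpace (QN M τ) := MetricSpace.induced φ φ.injective mm
  have hiso : Isometry φ := fun _ _ => rfl
  let φh : QN M τ ≃ᵢ QC M τ := ⟨φ, hiso⟩
  have hd' : ∀ S T : QN M τ, dist S T = Real.sqrt (n2 τ (S.op - T.op)) := fun S T =>
    hd (φ S) (φ T)
  let ψ : QN M τ ≃ᵢ QN M τ := ⟨adj hnt, by
    refine Isometry.of_dist_eq fun S T => ?_
    rw [hd', hd']
    congr 1
    have : ((adj hnt).toFun S).op - ((adj hnt).toFun T).op = star (S.op - T.op) := by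
      rw [star_sub]; rfl
    rw [this, hnt.n2_star (vn_sub S.mem T.mem)]⟩
  have h1 : {T : QN M τ | (∀ v, T.op v = 0 → v = 0) ∧ HasHyp M τ T.op} ∈ residual (QN M τ) :=
    tendsto_residual_of_isOpenMap φh.continuous φh.toHomeomorph.isOpenMap hres
  have h2 : ψ ⁻¹' {T : QN M τ | (∀ v, T.op v = 0 → v = 0) ∧ HasHyp M τ T.op} ∈
      residual (QN M τ) :=
    tendsto_residual_of_isOpenMap ψ.continuous ψ.toHomeomorph.isOpenMap h1
  refine ⟨m', fun S T => hd (φ S) (φ T), φh.toHomeomorph.symm.baireSpace, ?_⟩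
  filter_upwards [h1, h2] with T hT hT'
  refine ⟨(injective_iff_map_eq_zero T.op).2 hT.1, dense_of_adj (fun v hv => hT'.1 v hv), hT.2⟩

end Pool.Agent.Results.MP_f981b0_an.TypicalMcDuff
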